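import Pool.Agent.W739.CY.Stm

/-!
# Project CY: positivity
-/

set_option autoImplicit false

namespace Pool.Agent.W308.CY

open Finset Pool.Agent.W739.CY

section
variable {C : Type}

theorem spl_nonneg (w : List C) : ∀ f : List C → C → List C → ℝ,
    (∀ v c u, 0 ≤ f v c u) → 0 ≤ spl f w := by
  induction w with
  | nil => intro f _; simp [spl]
  | cons x w ih =>
    intro f hf
    simp only [spl]
    exact add_nonneg (hf _ _ _) (ih _ fun v c u => hf _ _ _)

theorem spl_abs_le (w : List C) : ∀ f g : List C → C → List C → ℝ,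
    (∀ v c u, |f v c u| ≤ g v c u) → |spl f w| ≤ spl g w := by
  induction w with
  | nil => intro f g _; simp [spl]
  | cons x w ih =>
    intro f g h
    simp only [spl]
    exact (abs_add_le _ _).trans (add_le_add (h _ _ _) (ih _ _ fun v c u => h _ _ _))

end

section
variable {C : Type} [DecidableEq C] {p : ℝ} (h0 : 0 < p) (h1 : p < 1)

include h0 h1 in
theorem Fn_nonneg (n : ℕ) : ∀ (a : Option C) (w : List C) (b : Option C), 0 ≤ Fn p n a w b := by
  induction n with
  | zero =>
    intro a w b
    unfold Fn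
    split_ifs <;> norm_num
  | succ n ih =>
    intro a w b
    unfold Fn
    split_ifs
    · refine div_nonneg (spl_nonneg _ _ fun v c u => mul_nonneg (pow_nonneg h0.le _) (ih _ _ _)) ?_
      have : p ^ (n + 1) ≤ 1 := pow_le_one₀ h0.le h1.le
      linarith
    · exact le_refl _

include h0 h1 in
theorem F1_nonneg (a : Option C) (w : List C) (b : Option C) : 0 ≤ F1 p a w b :=
  mul_nonneg (pow_nonneg h0.le _) (Fn_nonneg h0 h1 _ _ _ _)

include h0 h1 in
theorem Gn_le (n : ℕ) : ∀ (a : Option C) (w : List C) (b : Option C),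
    |Gn p (-p) n a w b| ≤ Gn p 1 n a w b := by
  induction n with
  | zero =>
    intro a w b
    unfold Gn
    rw [abs_of_nonneg (F1_nonneg h0 h1 a w b)]
  | succ n ih =>
    intro a w b
    unfold Gn
    have h2 := spl_abs_le w (fun v c u => F1 p a v (some c) * Gn p (-p) n (some c) u b)
      (fun v c u => F1 p a v (some c) * Gn p 1 n (some c) u b) (fun v c u => by
        rw [abs_mul, abs_of_nonneg (F1_nonneg h0 h1 _ _ _)]
        exact mul_le_mul_of_nonneg_left (ih _ _ _) (F1_nonneg h0 h1 _ _ _))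
    have h3 : 0 ≤ |spl (fun v c u => F1 p a v (some c) * Gn p (-p) n (some c) u b) w| :=
      abs_nonneg _
    refine (abs_add_le _ _).trans ?_
    rw [abs_of_nonneg (F1_nonneg h0 h1 a w b), abs_mul, abs_neg, abs_of_pos h0, one_mul]
    have h4 : p * |spl (fun v c u => F1 p a v (some c) * Gn p (-p) n (some c) u b) w| ≤
        |spl (fun v c u => F1 p a v (some c) * Gn p (-p) n (some c) u b) w| := by
      nlinarith
    linarith

end

theorem t_POS : S_POS := by
  intro C _ p h0 h1
  refine ⟨fun a b w => Fn_nonneg h0 h1 _ _ _ _, fun w => ?_⟩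
  unfold T
  refine spl_abs_le _ _ _ fun v j rest => spl_abs_le _ _ _ fun g k u => ?_
  have h2 : |G p (-p) (some j) g (some k)| ≤ G p 1 (some j) g (some k) := Gn_le h0 h1 _ _ _ _
  have h3 := F1_nonneg h0 h1 (some k) (u ++ v) (some j)
  rw [abs_mul, abs_mul, abs_of_nonneg h3, neg_sq, abs_of_nonneg (sq_nonneg p)]
  have h5 : p ^ 2 ≤ 1 := pow_le_one₀ h0.le h1.le
  have h6 : p ^ 2 * |G p (-p) (some j) g (some k)| ≤ 1 ^ 2 * G p 1 (some j) g (some k) := by
    rw [one_pow]
    exact mul_le_mul h5 h2 (abs_nonneg _) zero_le_one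
  exact mul_le_mul_of_nonneg_right h6 h3

end Pool.Agent.W308.CY
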